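import Pool.Agent.Lib.EI.Final

/-!
# Every lowest mode flow on the square torus which is not a shear flow is unstable
-/

set_option autoImplicit false

namespace Pool.Agent.Results.MP_42c0aa_an.NonShearFlows

open Pool.Agent.Lib.EI

/-- Let `ψ* = c₁ sin x₁ + c₂ cos x₁ + c₃ sin x₂ + c₄ cos x₂` be a stream function in the lowest
eigenspace of the square torus such that both its part depending on `x₁` and its part depending on `x₂`
are nonzero. Then the stationary solution with the stream function `ψ*` is unstable: there are constants
`ε, C > 0` such that for every `δ ∈ (0, 1]` there are smooth initial data at distance at most `δ`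
(`L²` distance of the velocities plus `L²` distance of the vorticities) from which every smooth solution
reaches the distance `ε` at some time `t ≤ C / δ`. -/
theorem result (c₁ c₂ c₃ c₄ : ℝ) (h12 : c₁ ≠ 0 ∨ c₂ ≠ 0) (h34 : c₃ ≠ 0 ∨ c₄ ≠ 0) :
    Unst fun x => c₁ * Real.sin x.1 + c₂ * Real.cos x.1 + c₃ * Real.sin x.2 + c₄ * Real.cos x.2 :=
  unst_all c₁ c₂ c₃ c₄ h12 h34

end Pool.Agent.Results.MP_42c0aa_an.NonShearFlows
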